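import Pool.Agent.Lib.helper16.AR2

set_option autoImplicit false

open MeasureTheory Pool.Agent.Lib.helper16.AR

namespace Pool.Agent.Results.MP_7faad7_pr.Disproof

@[ext] structure Dih where
  v : ℕ →₀ ℤ
  s : ℤˣ

noncomputable instance : Mul Dih := ⟨fun x y => ⟨x.v + x.s • y.v, x.s * y.s⟩⟩
noncomputable instance : One Dih := ⟨⟨0, 1⟩⟩
noncomputable instance : Inv Dih := ⟨fun x => ⟨-(x.s • x.v), x.s⟩⟩

@[simp] lemma mul_v (x y : Dih) : (x * y).v = x.v + x.s • y.v := rfl
@[simp] lemma mul_s (x y : Dih) : (x * y).s = x.s * y.s := rfl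
@[simp] lemma one_v : (1 : Dih).v = 0 := rfl
@[simp] lemma one_s : (1 : Dih).s = 1 := rfl
@[simp] lemma inv_v (x : Dih) : x⁻¹.v = -(x.s • x.v) := rfl
@[simp] lemma inv_s (x : Dih) : x⁻¹.s = x.s := rfl

noncomputable instance : Group Dih := Group.ofLeftAxioms
  (fun x y z => by apply Dih.ext <;> simp [mul_smul, add_assoc, mul_assoc])
  (fun x => by apply Dih.ext <;> simp)
  (fun x => by apply Dih.ext <;> simp)

instance : Countable Dih :=
  Function.Injective.countable (f := fun x : Dih => (x.v, x.s)) fun a b h => by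
    simp only [Prod.mk.injEq] at h
    exact Dih.ext h.1 h.2

noncomputable def sg : Dih →* ℤˣ := MonoidHom.mk' Dih.s fun _ _ => rfl

noncomputable def iso : sg.ker ≃* Multiplicative (ℕ →₀ ℤ) where
  toFun x := Multiplicative.ofAdd x.1.v
  invFun y := ⟨⟨Multiplicative.toAdd y, 1⟩, rfl⟩
  left_inv x := Subtype.ext (Dih.ext rfl x.2.symm)
  right_inv _ := rfl
  map_mul' x y := by
    have : x.1.s = 1 := x.2
    simp [this]

lemma ar [MeasurableSpace Dih] [DiscreteMeasurableSpace Dih] (μ : PMF Dih) (h : Adm μ) :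
    IsAR μ := by
  intro n _
  filter_upwards [ae_occurs μ] with ω hω
  apply top_of_inv μ h.2 ω n fun a ha => hω a ha n
  obtain ⟨a, ha, hs⟩ : ∃ a, μ a ≠ 0 ∧ a.s = -1 := by
    by_contra hc
    push Not at hc
    have : Subgroup.closure μ.support ≤ sg.ker := by
      rw [Subgroup.closure_le]
      intro a ha
      exact (Int.units_eq_one_or a.s).resolve_right (hc a ha)
    rw [h.2] at this
    have h1 : (-1 : ℤˣ) = 1 := this (Subgroup.mem_top (⟨0, -1⟩ : Dih))
    simp at h1
  obtain ⟨k, hk, rfl⟩ := hω a ha n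
  obtain ⟨r, hr, hrs⟩ : ∃ r ∈ Sg ω n, r.s = -1 := by
    rcases Int.units_eq_one_or (walk ω k).s with e | e
    · exact ⟨_, walk_mem ω n (k + 1) (by omega), by rw [walk_succ, mul_s, e, hs, one_mul]⟩
    · exact ⟨_, walk_mem ω n k hk, e⟩
  intro m hm
  have hx := walk_mem ω n m hm
  generalize walk ω m = x at hx
  rcases Int.units_eq_one_or x.s with e | e
  · have : x⁻¹ = r * x * r := by apply Dih.ext <;> simp [e, hrs]
    rw [this]
    exact (Sg ω n).mul_mem ((Sg ω n).mul_mem hr hx) hr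
  · have : x⁻¹ = x := by apply Dih.ext <;> simp [e]
    rw [this]; exact hx

/-- A countable AR group with a subgroup of finite index that is not AR. -/
theorem result : ∃ (G : Type) (_ : Group G) (_ : Countable G) (_ : MeasurableSpace G)
    (_ : DiscreteMeasurableSpace G), (∀ μ : PMF G, Adm μ → IsAR μ) ∧
    ∃ H : Subgroup G, H.FiniteIndex ∧ ∃ (_ : DiscreteMeasurableSpace H) (μ : PMF H),
      Adm μ ∧ 0 < law μ {ω | Sg ω 1 ≠ ⊤} := by
  letI : MeasurableSpace Dih := ⊤
  haveI : DiscreteMeasurableSpace Dih := ⟨fun _ => trivial⟩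
  haveI hd : DiscreteMeasurableSpace sg.ker := inferInstance
  obtain ⟨μ, h1, h2⟩ := nonAR_free (Equiv.refl ℕ) iso
  exact ⟨Dih, inferInstance, inferInstance, inferInstance, inferInstance, ar, sg.ker,
    inferInstance, hd, μ, h1, pos_iff_ne_zero.2 fun h => h2 (ae_iff.2 h)⟩

end Pool.Agent.Results.MP_7faad7_pr.Disproof
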